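import Pool.Agent.W842.KF.Stm

set_option autoImplicit false

/-! Project KF (helper842), part CUT: cutting the Kempe chains with the local lemma (helper723). -/

namespace Pool.Agent.W723.KF

open Finset Pool.Agent.Helper635.LLL Pool.Agent.W842.KF

section

variable {V : Type} [Fintype V]

lemma self_bl (H : SimpleGraph V) (v : V) (s : ℕ) : v ∈ bl H v s := by
  induction s with
  | zero => rw [bl_zero]
  | succ s ih =>
    rw [bl_succ]
    exact Or.inl ih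

lemma bl_mono {H : SimpleGraph V} {v u : V} {s t : ℕ} (h : s ≤ t) (hu : u ∈ bl H v s) :
    u ∈ bl H v t := by
  induction t, h using Nat.le_induction with
  | base => exact hu
  | succ t _ ih =>
    rw [bl_succ]
    exact Or.inl ih

lemma adj_bl {H : SimpleGraph V} {v u : V} {s : ℕ} (hs : 1 ≤ s) (h : H.Adj v u) :
    u ∈ bl H v s := by
  have h1 : u ∈ bl H v (0 + 1) := by
    rw [bl_succ]
    exact Or.inr ⟨v, self_bl H v 0, h⟩
  exact bl_mono hs h1

end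

section

variable {T C : Type} [Fintype T] [Fintype C]

lemma cnt_or (P Q : (T → C) → Prop) :
    (cnt (fun ω => P ω ∨ Q ω) : ℝ) ≤ cnt P + cnt Q := by
  classical
  have h : ev (fun ω => P ω ∨ Q ω) ⊆ ev P ∪ ev Q := by
    intro ω hω
    rw [mem_ev] at hω
    rw [Finset.mem_union, mem_ev, mem_ev]
    exact hω
  have h1 : cnt (fun ω => P ω ∨ Q ω) ≤ cnt P + cnt Q :=
    (Finset.card_le_card h).trans (Finset.card_union_le _ _)
  exact_mod_cast h1

lemma cnt_ex {α : Type} (I : Finset α) (P : α → (T → C) → Prop) :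
    (cnt (fun ω => ∃ i ∈ I, P i ω) : ℝ) ≤ ∑ i ∈ I, (cnt (P i) : ℝ) := by
  classical
  have h : ev (fun ω => ∃ i ∈ I, P i ω) ⊆ I.biUnion (fun i => ev (P i)) := by
    intro ω hω
    rw [mem_ev] at hω
    obtain ⟨i, hi, h⟩ := hω
    rw [Finset.mem_biUnion]
    exact ⟨i, hi, by rw [mem_ev]; exact h⟩
  have h1 : cnt (fun ω => ∃ i ∈ I, P i ω) ≤ ∑ i ∈ I, cnt (P i) :=
    (Finset.card_le_card h).trans Finset.card_biUnion_le
  exact_mod_cast h1

end

lemma filt_congr {T : Type} {N : ℕ} (Z : Finset T) {m m' : T → Fin N}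
    (h : ∀ z ∈ Z, m z = m' z) :
    (Z.filter fun z => (m z : ℕ) = 0) = Z.filter fun z => (m' z : ℕ) = 0 := by
  apply Finset.filter_congr
  intro z hz
  rw [h z hz]

open Classical in
theorem prob_core (hM1 : S_MARK1) (hM2 : S_MARK2) {V T α : Type} [Fintype V] [Fintype T]
    (K s N d : ℕ) (p : ℝ) (hN : 1 ≤ N) (Z1 Z2 S : V → Finset T) (I : V → Finset α)
    (Z3 : α → Finset T) (cZ1 : ∀ v, (Z1 v).card ≤ K) (cZ2 : ∀ v, (Z2 v).card ≤ K)
    (cI : ∀ v, (I v).card ≤ 2 * K) (cZ3 : ∀ v, ∀ q ∈ I v, (Z3 q).card = s + 1)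
    (sub1 : ∀ v, ∀ z ∈ Z1 v, z ∈ S v) (sub2 : ∀ v, ∀ z ∈ Z2 v, z ∈ S v)
    (sub3 : ∀ v, ∀ q ∈ I v, ∀ z ∈ Z3 q, z ∈ S v)
    (hdd : ∀ v : V, ∀ A : Finset V, (∀ j ∈ A, ¬ Disjoint (S v) (S j)) → A.card ≤ d)
    (hp : 2 * ((K : ℝ) / N) ^ 6 + 2 * K * (1 - 1 / (N : ℝ)) ^ (s + 1) ≤ p)
    (h4 : 4 * p * d ≤ 1) (hd1 : 1 ≤ d) :
    ∃ m : T → Fin N, ∀ v, ((Z1 v).filter fun z => (m z : ℕ) = 0).card ≤ 5 ∧
      ((Z2 v).filter fun z => (m z : ℕ) = 0).card ≤ 5 ∧ ∀ q ∈ I v, ∃ z ∈ Z3 q, (m z : ℕ) = 0 := by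
  let B : V → (T → Fin N) → Prop := fun v m =>
    6 ≤ ((Z1 v).filter fun z => (m z : ℕ) = 0).card ∨
      (6 ≤ ((Z2 v).filter fun z => (m z : ℕ) = 0).card ∨
        ∃ q ∈ I v, ∀ z ∈ Z3 q, (m z : ℕ) ≠ 0)
  have hdep : ∀ v ∈ (univ : Finset V), Pool.Agent.Helper635.LLL.DependsOn (B v) (S v) := by
    intro v _ m m' hm h
    rcases h with h | h | ⟨q, hq, h⟩
    · left
      rwa [filt_congr (Z1 v) (fun z hz => hm z (sub1 v z hz))] at h
    · right; left
      rwa [filt_congr (Z2 v) (fun z hz => hm z (sub2 v z hz))] at h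
    · right; right
      refine ⟨q, hq, fun z hz => ?_⟩
      rw [← hm z (sub3 v q hq z hz)]
      exact h z hz
  have hN0 : (0 : ℝ) < N := by exact_mod_cast hN
  have hN1 : (1 : ℝ) ≤ N := by exact_mod_cast hN
  have hq0 : 0 ≤ 1 - 1 / (N : ℝ) := by
    have : 1 / (N : ℝ) ≤ 1 := by
      rw [div_le_one hN0]
      exact hN1
    linarith
  have hne : 0 < Fintype.card (T → Fin N) := by
    rw [Fintype.card_pos_iff]
    exact ⟨fun _ => ⟨0, hN⟩⟩
  have key : ∀ Q : ℝ, 0 ≤ Q →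
      (∀ Z : Finset T, (cnt (fun m : T → Fin N => ∀ z ∈ Z, (m z : ℕ) ≠ 0) : ℝ) ≤
        (1 - 1 / (N : ℝ)) ^ Z.card * Q) →
      (∀ (Z : Finset T) (t : ℕ), (cnt (fun m : T → Fin N =>
        t ≤ (Z.filter fun z => (m z : ℕ) = 0).card) : ℝ) ≤ ((Z.card : ℝ) / N) ^ t * Q) →
      ∀ v ∈ (univ : Finset V), (cnt (B v) : ℝ) ≤ p * Q := by
    intro Q hQ k1 k2 v _
    have hp1 : ∀ (Z : Finset T), Z.card ≤ K → (cnt (fun m : T → Fin N =>
        6 ≤ (Z.filter fun z => (m z : ℕ) = 0).card) : ℝ) ≤ ((K : ℝ) / N) ^ 6 * Q := by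
      intro Z hZ
      refine (k2 Z 6).trans ?_
      apply mul_le_mul_of_nonneg_right _ hQ
      apply pow_le_pow_left₀ (by positivity)
      apply div_le_div_of_nonneg_right _ hN0.le
      exact_mod_cast hZ
    have h3 : (cnt (fun m : T → Fin N => ∃ q ∈ I v, ∀ z ∈ Z3 q, (m z : ℕ) ≠ 0) : ℝ) ≤
        2 * K * (1 - 1 / (N : ℝ)) ^ (s + 1) * Q := by
      refine (cnt_ex (I v) (fun q (m : T → Fin N) => ∀ z ∈ Z3 q, (m z : ℕ) ≠ 0)).trans ?_
      have h1 : ∀ q ∈ I v, (cnt (fun m : T → Fin N => ∀ z ∈ Z3 q, (m z : ℕ) ≠ 0) : ℝ) ≤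
          (1 - 1 / (N : ℝ)) ^ (s + 1) * Q := by
        intro q hq
        have h2 := k1 (Z3 q)
        rw [cZ3 v q hq] at h2
        exact h2
      refine (Finset.sum_le_sum h1).trans ?_
      rw [Finset.sum_const, nsmul_eq_mul]
      have h5 : ((I v).card : ℝ) ≤ 2 * K := by exact_mod_cast cI v
      have h6 : 0 ≤ (1 - 1 / (N : ℝ)) ^ (s + 1) * Q := mul_nonneg (pow_nonneg hq0 _) hQ
      calc ((I v).card : ℝ) * ((1 - 1 / (N : ℝ)) ^ (s + 1) * Q)
          ≤ 2 * K * ((1 - 1 / (N : ℝ)) ^ (s + 1) * Q) := mul_le_mul_of_nonneg_right h5 h6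
        _ = _ := by ring
    have h1 := hp1 (Z1 v) (cZ1 v)
    have h2 := hp1 (Z2 v) (cZ2 v)
    have h4 : (cnt (B v) : ℝ) ≤ ((K : ℝ) / N) ^ 6 * Q + (((K : ℝ) / N) ^ 6 * Q +
        2 * K * (1 - 1 / (N : ℝ)) ^ (s + 1) * Q) := by
      refine (cnt_or _ _).trans (add_le_add h1 ?_)
      exact (cnt_or _ _).trans (add_le_add h2 h3)
    refine h4.trans ?_
    have h5 := mul_le_mul_of_nonneg_right hp hQ
    linarith
  have hprob := key (Fintype.card (T → Fin N)) (Nat.cast_nonneg _) (fun Z => hM1 T N hN Z)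
    (fun Z t => hM2 T N hN Z t)
  have hp0 : 0 ≤ p := by
    refine le_trans ?_ hp
    have := pow_nonneg hq0 (s + 1)
    positivity
  obtain ⟨m, hm⟩ := lll (univ : Finset V) B S hdep p d hp0 hprob
    (fun v _ => hdd v _ (fun j hj => (Finset.mem_filter.mp hj).2)) h4 hd1 hne
  refine ⟨m, fun v => ⟨?_, ?_, ?_⟩⟩
  · by_contra h
    exact hm v (Finset.mem_univ v) (Or.inl (by omega))
  · by_contra h
    exact hm v (Finset.mem_univ v) (Or.inr (Or.inl (by omega)))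
  · intro q hq
    by_contra h
    push Not at h
    exact hm v (Finset.mem_univ v) (Or.inr (Or.inr ⟨q, hq, h⟩))

theorem cut_core (hBALL : S_BALL) (hBMEET : S_BMEET) (hGROW : S_GROW) (hPATHS : S_PATHS)
    (hCLS : S_CLS) (hM1 : S_MARK1) (hM2 : S_MARK2)
    (V : Type) [Fintype V] (Γ : SimpleGraph V) (c : V → V → ℕ) (σ : ℕ → ℕ) (K s N d : ℕ) (p : ℝ)
    (hK0 : 0 < K) (hcol : Col Γ c) (hσ : ∀ x, σ (σ x) = x) (hdeg : ∀ v, (nb Γ v).card ≤ K)
    (hkey : ∀ u v, Γ.Adj u v → key σ (c u v) < K) (hs : 1 ≤ s) (hN : 1 ≤ N)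
    (hp : 2 * ((K : ℝ) / N) ^ 6 + 2 * K * (1 - 1 / (N : ℝ)) ^ (s + 1) ≤ p)
    (hd : K * (4 * s + 1) ≤ d) (h4 : 4 * p * d ≤ 1) :
    ∃ M : SimpleGraph V, M ≤ Γ ∧ (∀ v, (nb M v).card ≤ 15) ∧
      ∀ (P : ℕ) (v : V), (cmp (cls (Γ \ M) c σ P) v).card ≤ 2 * s + 1 := by
  classical
  have hsym := hcol.1
  -- the class of an edge, as an element of `Fin K`
  obtain ⟨kf, hkf, kfs⟩ : ∃ kf : V → V → Fin K, (∀ u v, Γ.Adj u v → (kf u v : ℕ) = key σ (c u v)) ∧
      ∀ u v, kf u v = kf v u := by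
    refine ⟨fun v u => if h : key σ (c v u) < K then ⟨_, h⟩ else ⟨0, hK0⟩, ?_, ?_⟩
    · intro u v h
      have h1 := hkey u v h
      simp only [dif_pos h1]
    · intro u v
      simp only [hsym u v]
  -- the sets of pairs
  obtain ⟨Z1, hZ1⟩ : ∃ Z1 : V → Finset (Fin K × V), ∀ v z, z ∈ Z1 v ↔ z.2 = v :=
    ⟨fun v => univ.filter (fun t => t.2 = v), fun v z => by simp⟩
  obtain ⟨Z2, memZ2, cZ2⟩ : ∃ Z2 : V → Finset (Fin K × V),
      (∀ v z, z ∈ Z2 v ↔ ∃ u, Γ.Adj v u ∧ (kf v u, u) = z) ∧ ∀ v, (Z2 v).card ≤ K :=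
    ⟨fun v => (nb Γ v).image (fun u => (kf v u, u)),
      fun v z => by simp only [Finset.mem_image, mem_nb],
      fun v => Finset.card_image_le.trans (hdeg v)⟩
  obtain ⟨S, memS⟩ : ∃ S : V → Finset (Fin K × V), ∀ v (t : Fin K × V),
      t ∈ S v ↔ t.2 ∈ bl (cls Γ c σ (t.1 : ℕ)) v s :=
    ⟨fun v => univ.filter (fun t => t.2 ∈ bl (cls Γ c σ (t.1 : ℕ)) v s), fun v t => by simp⟩
  obtain ⟨I, memI, cI⟩ : ∃ I : V → Finset (Σ _ : Fin K, (Fin (s + 1) → V)),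
      (∀ v q, q ∈ I v ↔ q.2 ∈ pths (cls Γ c σ (q.1 : ℕ)) v s) ∧ ∀ v, (I v).card ≤ 2 * K := by
    refine ⟨fun v => (univ : Finset (Fin K)).sigma (fun P => pths (cls Γ c σ (P : ℕ)) v s),
      fun v q => by simp, fun v => ?_⟩
    rw [Finset.card_sigma]
    refine (Finset.sum_le_card_nsmul _ _ 2 (fun P _ => ?_)).trans ?_
    · exact hPATHS V _ (hCLS V Γ c σ hcol hσ P) v s
    · rw [Finset.card_univ, Fintype.card_fin, smul_eq_mul]
      omega
  obtain ⟨Z3, hZ3, cZ3⟩ : ∃ Z3 : (Σ _ : Fin K, (Fin (s + 1) → V)) → Finset (Fin K × V),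
      (∀ q z, z ∈ Z3 q ↔ ∃ i, (q.1, q.2 i) = z) ∧
      ∀ q, Function.Injective q.2 → (Z3 q).card = s + 1 := by
    refine ⟨fun q => univ.image (fun i => (q.1, q.2 i)), fun q z => by simp, fun q hq => ?_⟩
    rw [Finset.card_image_of_injective, Finset.card_univ, Fintype.card_fin]
    intro i j hij
    exact hq (Prod.ext_iff.mp hij).2
  have clsAdj : ∀ u v, Γ.Adj u v → (cls Γ c σ (kf u v : ℕ)).Adj u v := by
    intro u v h
    refine ⟨h, (hkf u v h).symm, ?_⟩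
    rw [hsym v u]
    exact (hkf u v h).symm
  have sub1 : ∀ v, ∀ z ∈ Z1 v, z ∈ S v := by
    intro v z hz
    have h1 : z.2 = v := (hZ1 v z).mp hz
    rw [memS, h1]
    exact self_bl _ _ _
  have sub2 : ∀ v, ∀ z ∈ Z2 v, z ∈ S v := by
    intro v z hz
    obtain ⟨u, hu, rfl⟩ := (memZ2 v z).mp hz
    rw [memS]
    exact adj_bl hs (clsAdj v u hu)
  have sub3 : ∀ v, ∀ q ∈ I v, ∀ z ∈ Z3 q, z ∈ S v := by
    intro v q hq z hz
    obtain ⟨i, rfl⟩ := (hZ3 q z).mp hz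
    rw [memS]
    exact (hGROW V _ v s).2 q.2 ((memI v q).mp hq) i
  have cZ1 : ∀ v, (Z1 v).card ≤ K := by
    intro v
    have : Z1 v ⊆ (univ : Finset (Fin K)).image (fun P => (P, v)) := by
      intro z hz
      have h1 : z.2 = v := (hZ1 v z).mp hz
      rw [Finset.mem_image]
      exact ⟨z.1, Finset.mem_univ _, by rw [← h1]⟩
    refine (Finset.card_le_card this).trans (Finset.card_image_le.trans ?_)
    rw [Finset.card_univ, Fintype.card_fin]
  have cZ3' : ∀ v, ∀ q ∈ I v, (Z3 q).card = s + 1 := fun v q hq =>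
    cZ3 q (mem_pths.mp ((memI v q).mp hq)).2.1
  have hdd : ∀ v : V, ∀ A : Finset V, (∀ j ∈ A, ¬ Disjoint (S v) (S j)) → A.card ≤ d := by
    intro v A hA
    refine le_trans ?_ hd
    have hsub : A ⊆
        (univ : Finset (Fin K)).biUnion (fun P => bl (cls Γ c σ (P : ℕ)) v (2 * s)) := by
      intro j hj
      obtain ⟨t, ht1, ht2⟩ := Finset.not_disjoint_iff.mp (hA j hj)
      rw [memS] at ht1 ht2
      rw [Finset.mem_biUnion]
      exact ⟨t.1, Finset.mem_univ _, hBMEET V _ v j t.2 s ht1 ht2⟩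
    refine (Finset.card_le_card hsub).trans ?_
    refine (Finset.card_biUnion_le_card_mul _ _ (4 * s + 1) (fun P _ => ?_)).trans ?_
    · refine (hBALL V _ (hCLS V Γ c σ hcol hσ P) v (2 * s)).trans ?_
      omega
    · rw [Finset.card_univ, Fintype.card_fin]
  have hd1 : 1 ≤ d := by
    refine le_trans ?_ hd
    have : 1 * 1 ≤ K * (4 * s + 1) := Nat.mul_le_mul hK0 (by omega)
    omega
  obtain ⟨m, hm⟩ := prob_core hM1 hM2 K s N d p hN Z1 Z2 S I Z3 cZ1 cZ2 cI cZ3' sub1 sub2 sub3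
    hdd hp h4 hd1
  -- the graph
  let M : SimpleGraph V :=
    { Adj := fun u v => Γ.Adj u v ∧ ((m (kf u v, u) : ℕ) = 0 ∨ (m (kf u v, v) : ℕ) = 0)
      symm := ⟨fun u v h => ⟨h.1.symm, by rw [kfs v u]; exact h.2.symm⟩⟩
      loopless := ⟨fun u h => Γ.loopless.irrefl u h.1⟩ }
  have hMΓ : M ≤ Γ := fun u v h => h.1
  refine ⟨M, hMΓ, ?_, ?_⟩
  · -- degree
    intro v
    obtain ⟨hB1, hB2, _⟩ := hm v
    have hsub : nb M v ⊆ (((Z1 v).filter fun z => (m z : ℕ) = 0).biUnion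
        (fun z => nb (cls Γ c σ (z.1 : ℕ)) v)) ∪
        (((Z2 v).filter fun z => (m z : ℕ) = 0).image (fun z => z.2)) := by
      intro u hu
      rw [mem_nb] at hu
      obtain ⟨hadj, h | h⟩ := hu
      · rw [Finset.mem_union]
        left
        rw [Finset.mem_biUnion]
        refine ⟨(kf v u, v), ?_, ?_⟩
        · rw [Finset.mem_filter]
          exact ⟨(hZ1 v _).mpr rfl, h⟩
        · rw [mem_nb]
          exact clsAdj v u hadj
      · rw [Finset.mem_union]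
        right
        rw [Finset.mem_image]
        refine ⟨(kf v u, u), ?_, rfl⟩
        rw [Finset.mem_filter]
        exact ⟨(memZ2 v _).mpr ⟨u, hadj, rfl⟩, h⟩
    refine (Finset.card_le_card hsub).trans ((Finset.card_union_le _ _).trans ?_)
    have h1 : (((Z1 v).filter fun z => (m z : ℕ) = 0).biUnion
        (fun z => nb (cls Γ c σ (z.1 : ℕ)) v)).card ≤ 5 * 2 := by
      refine (Finset.card_biUnion_le_card_mul _ _ 2
        (fun z _ => hCLS V Γ c σ hcol hσ z.1 v)).trans ?_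
      exact Nat.mul_le_mul_right 2 hB1
    have h2 : (((Z2 v).filter fun z => (m z : ℕ) = 0).image (fun z => z.2)).card ≤ 5 :=
      Finset.card_image_le.trans hB2
    omega
  · -- components
    intro P v
    have hcol' : Col (Γ \ M) c := ⟨hcol.1, fun u v w h1 h2 h3 => hcol.2 u v w h1.1 h2.1 h3⟩
    obtain ⟨_, _, hB3⟩ := hm v
    -- a marked vertex is on no edge of the class outside of `M`
    have hedge : ∀ x y, (cls (Γ \ M) c σ P).Adj x y → ∀ hP : P < K,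
        (m (⟨P, hP⟩, x) : ℕ) ≠ 0 ∧ (m (⟨P, hP⟩, y) : ℕ) ≠ 0 := by
      intro x y hxy hP
      have hk : kf x y = ⟨P, hP⟩ := by
        apply Fin.ext
        rw [hkf x y hxy.1.1]
        exact hxy.2.1
      constructor
      · intro h
        apply hxy.1.2
        exact ⟨hxy.1.1, Or.inl (by rw [hk]; exact h)⟩
      · intro h
        apply hxy.1.2
        exact ⟨hxy.1.1, Or.inr (by rw [hk]; exact h)⟩
    have hempty : pths (cls (Γ \ M) c σ P) v s = ∅ := by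
      rw [Finset.eq_empty_iff_forall_notMem]
      intro w hw
      obtain ⟨hw0, hwinj, hwadj⟩ := mem_pths.mp hw
      have hP : P < K := by
        have h1 := hwadj ⟨0, hs⟩
        have h2 := hkey _ _ h1.1.1
        rw [h1.2.1] at h2
        exact h2
      have hwI : (⟨⟨P, hP⟩, w⟩ : Σ _ : Fin K, (Fin (s + 1) → V)) ∈ I v := by
        rw [memI]
        rw [mem_pths]
        refine ⟨hw0, hwinj, fun i => ?_⟩
        have h1 := hwadj i
        exact ⟨h1.1.1, h1.2.1, h1.2.2⟩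
      obtain ⟨z, hz, hz0⟩ := hB3 _ hwI
      obtain ⟨i, rfl⟩ := (hZ3 _ z).mp hz
      rcases Nat.lt_or_ge i.val s with hi | hi
      · have h1 := (hedge _ _ (hwadj ⟨i.val, hi⟩) hP).1
        exact h1 hz0
      · have hi2 := i.isLt
        have h1 := (hedge _ _ (hwadj ⟨s - 1, by omega⟩) hP).2
        apply h1
        have h2 : (⟨s - 1, by omega⟩ : Fin s).succ = i := by
          apply Fin.ext
          rw [Fin.val_succ]
          simp only
          omega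
        rw [h2]
        exact hz0
    have hsub := (hGROW V (cls (Γ \ M) c σ P) v s).1 hempty
    exact (Finset.card_le_card hsub).trans
      (hBALL V _ (hCLS V (Γ \ M) c σ hcol' hσ P) v s)

/-- the numerical condition -/
theorem numer (K : ℕ) (hK : 64 ≤ K) :
    4 * (2 * ((K : ℝ) / ((K ^ 2 : ℕ) : ℝ)) ^ 6 +
      2 * K * (1 - 1 / ((K ^ 2 : ℕ) : ℝ)) ^ (K ^ 3 + 1)) * ((K * (4 * K ^ 3 + 1) : ℕ) : ℝ) ≤ 1 := by
  have hx : (64 : ℝ) ≤ K := by exact_mod_cast hK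
  set x : ℝ := (K : ℝ) with hxdef
  have hx0 : 0 < x := by linarith
  push_cast
  rw [← hxdef]
  have e1 : x / x ^ 2 = 1 / x := by
    field_simp
  have hu0 : 0 ≤ 1 - 1 / x ^ 2 := by
    have : 1 / x ^ 2 ≤ 1 := by
      rw [div_le_one (by positivity)]
      nlinarith
    linarith
  have h1 : (1 - 1 / x ^ 2) ^ (K ^ 3 + 1) ≤ Real.exp (-x) := by
    have h2 : 1 - 1 / x ^ 2 ≤ Real.exp (-(1 / x ^ 2)) := by
      have := Real.add_one_le_exp (-(1 / x ^ 2))
      linarith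
    refine (pow_le_pow_left₀ hu0 h2 _).trans ?_
    rw [← Real.exp_nat_mul]
    apply Real.exp_le_exp.mpr
    push_cast
    rw [← hxdef]
    have e2 : (x ^ 3 + 1) * -(1 / x ^ 2) = -x - 1 / x ^ 2 := by
      field_simp
      ring
    rw [e2]
    have : 0 < 1 / x ^ 2 := by positivity
    linarith
  have h3 : 160 * x ^ 5 ≤ Real.exp x := by
    have h4 := Real.pow_div_factorial_le_exp x hx0.le 12
    refine le_trans ?_ h4
    rw [le_div_iff₀ (by positivity)]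
    have h5 : ((Nat.factorial 12 : ℕ) : ℝ) = 479001600 := by
      norm_num [Nat.factorial]
    rw [h5]
    have h6 : (64 : ℝ) ^ 7 ≤ x ^ 7 := pow_le_pow_left₀ (by norm_num) hx 7
    have h7 : x ^ 12 = x ^ 5 * x ^ 7 := by ring
    rw [h7]
    have h8 : 0 < x ^ 5 := by positivity
    nlinarith
  have h4 : Real.exp (-x) * (160 * x ^ 5) ≤ 1 := by
    have := mul_le_mul_of_nonneg_left h3 (Real.exp_pos (-x)).le
    rwa [← Real.exp_add, neg_add_cancel, Real.exp_zero] at this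
  have hE := Real.exp_pos (-x)
  have h5 : x * (4 * x ^ 3 + 1) ≤ 5 * x ^ 4 := by
    have : x * 1 ≤ x * x ^ 3 := by
      apply mul_le_mul_of_nonneg_left _ hx0.le
      exact one_le_pow₀ (by linarith)
    nlinarith
  rw [e1]
  have h6 : 2 * (1 / x) ^ 6 + 2 * x * (1 - 1 / x ^ 2) ^ (K ^ 3 + 1) ≤
      2 * (1 / x) ^ 6 + 2 * x * Real.exp (-x) := by
    have := mul_le_mul_of_nonneg_left h1 (show 0 ≤ 2 * x by positivity)
    linarith
  have h7 : 0 ≤ 2 * (1 / x) ^ 6 + 2 * x * Real.exp (-x) := by positivity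
  calc 4 * (2 * (1 / x) ^ 6 + 2 * x * (1 - 1 / x ^ 2) ^ (K ^ 3 + 1)) * (x * (4 * x ^ 3 + 1))
      ≤ 4 * (2 * (1 / x) ^ 6 + 2 * x * Real.exp (-x)) * (5 * x ^ 4) := by
        apply mul_le_mul _ h5 (by positivity) (by positivity)
        linarith
    _ = 40 * (1 / x ^ 2) + (Real.exp (-x) * (160 * x ^ 5)) / 4 := by
        field_simp
        ring
    _ ≤ 1 := by
        have h8 : 1 / x ^ 2 ≤ 1 / 64 ^ 2 := by
          apply one_div_le_one_div_of_le (by positivity)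
          exact pow_le_pow_left₀ (by norm_num) hx 2
        norm_num at h8
        have h9 : 40 * (1 / x ^ 2) ≤ 1 / 4 := by
          rw [one_div]
          linarith
        linarith

theorem t_cut : S_BALL → S_BMEET → S_GROW → S_PATHS → S_CLS → S_MARK1 → S_MARK2 → S_CUT := by
  intro hBALL hBMEET hGROW hPATHS hCLS hM1 hM2
  intro V _ Γ c σ K hK hcol hσ hdeg hkey
  obtain ⟨M, h1, h2, h3⟩ := cut_core hBALL hBMEET hGROW hPATHS hCLS hM1 hM2 V Γ c σ K (K ^ 3)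
    (K ^ 2) (K * (4 * K ^ 3 + 1)) _ (by omega) hcol hσ hdeg hkey
    (Nat.one_le_pow _ _ (by omega)) (Nat.one_le_pow _ _ (by omega)) le_rfl le_rfl (numer K hK)
  refine ⟨M, h1, h2, fun P v => (h3 P v).trans ?_⟩
  have : 1 ≤ K ^ 3 := Nat.one_le_pow _ _ (by omega)
  omega

end Pool.Agent.W723.KF
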